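import Mathlib

namespace Pool.Agent.Results.MP_a8d5c3_co.No

open Finset Filter Topology

/-- Points of three-space. -/
abbrev E := Fin 3 → ℝ

/-- The line through `p` with direction `v`. -/
def lineThrough (p v : E) : Set E := {x | ∃ t : ℝ, x = p + t • v}

/-- An affine line. -/
def IsLine (l : Set E) : Prop := ∃ p v : E, v ≠ 0 ∧ l = lineThrough p v

/-- An affine plane. -/
def IsPlane (P : Set E) : Prop :=
  ∃ (a : E) (b : ℝ), a ≠ 0 ∧ P = {x | a 0 * x 0 + a 1 * x 1 + a 2 * x 2 = b}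

/-- `p` lies on three lines of `L` with linearly independent directions. -/
def IsJoint (L : Set (Set E)) (p : E) : Prop :=
  ∃ v : Fin 3 → E, LinearIndependent ℝ v ∧ ∀ i, lineThrough p (v i) ∈ L

/-- The number of joints. -/
noncomputable def J (L : Set (Set E)) : ℕ := {p | IsJoint L p}.ncard

/-- A finite generic set of planes. -/
def Generic (H : Set (Set E)) : Prop :=
  H.Finite ∧ (∀ P ∈ H, IsPlane P) ∧
    (∀ P ∈ H, ∀ Q ∈ H, P ≠ Q → ¬ ∃ w : E, Q = {x | x - w ∈ P}) ∧
    (∀ P ∈ H, ∀ Q ∈ H, ∀ R ∈ H, P ≠ Q → P ≠ R → Q ≠ R →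
      ¬ ∃ l, IsLine l ∧ l ⊆ P ∩ Q ∩ R) ∧
    ∀ P ∈ H, ∀ Q ∈ H, ∀ R ∈ H, ∀ S ∈ H, P ≠ Q → P ≠ R → P ≠ S → Q ≠ R → Q ≠ S → R ≠ S →
      ¬ ∃ p, p ∈ P ∩ Q ∩ R ∩ S

/-- The pairwise intersections of the planes of `H`. -/
def LH (H : Set (Set E)) : Set (Set E) := {l | ∃ P ∈ H, ∃ Q ∈ H, P ≠ Q ∧ l = P ∩ Q}

theorem vec_ext {x y : E} (h0 : x 0 = y 0) (h1 : x 1 = y 1) (h2 : x 2 = y 2) : x = y := by
  funext i
  fin_cases i
  · exact h0
  · exact h1
  · exact h2

theorem ne_zero_iff {a : E} (h : a ≠ 0) : 0 < a 0 ^ 2 + a 1 ^ 2 + a 2 ^ 2 := by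
  by_contra hc
  apply h
  apply vec_ext <;> simp only [Pi.zero_apply] <;> nlinarith [sq_nonneg (a 0), sq_nonneg (a 1), sq_nonneg (a 2)]

/-- cross product -/
def cr (a b : E) : E := ![a 1 * b 2 - a 2 * b 1, a 2 * b 0 - a 0 * b 2, a 0 * b 1 - a 1 * b 0]

theorem cr0 (a b : E) : cr a b 0 = a 1 * b 2 - a 2 * b 1 := rfl
theorem cr1 (a b : E) : cr a b 1 = a 2 * b 0 - a 0 * b 2 := rfl
theorem cr2 (a b : E) : cr a b 2 = a 0 * b 1 - a 1 * b 0 := rfl

theorem par_of_cr {a b : E} (ha : a ≠ 0) (h : cr a b = 0) : ∃ m : ℝ, b = m • a := by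
  have hp := ne_zero_iff ha
  have h0 := congrFun h 0
  have h1 := congrFun h 1
  have h2 := congrFun h 2
  simp [cr] at h0 h1 h2
  refine ⟨(a 0 * b 0 + a 1 * b 1 + a 2 * b 2) / (a 0 ^ 2 + a 1 ^ 2 + a 2 ^ 2), ?_⟩
  apply vec_ext <;> simp only [Pi.smul_apply, smul_eq_mul] <;> field_simp
  · linear_combination (a 2) * h1 - (a 1) * h2
  · linear_combination (a 0) * h2 - (a 2) * h0
  · linear_combination (a 1) * h0 - (a 0) * h1

theorem par_cr {a b v : E} (hc : cr a b ≠ 0) (h1 : a 0 * v 0 + a 1 * v 1 + a 2 * v 2 = 0)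
    (h2 : b 0 * v 0 + b 1 * v 1 + b 2 * v 2 = 0) : ∃ m : ℝ, v = m • cr a b := by
  apply par_of_cr hc
  apply vec_ext <;> simp [cr]
  · linear_combination (b 0) * h1 - (a 0) * h2
  · linear_combination (b 1) * h1 - (a 1) * h2
  · linear_combination (b 2) * h1 - (a 2) * h2

theorem mem_self (p v : E) : p ∈ lineThrough p v := ⟨0, by simp⟩

theorem mem_one (p v : E) : p + v ∈ lineThrough p v := ⟨1, by simp⟩

/-- two distinct planes share at most one line -/
theorem line_unique {P Q l l' : Set E} (hP : IsPlane P) (hQ : IsPlane Q) (hne : P ≠ Q)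
    (hl : IsLine l) (hl' : IsLine l') (h : l ⊆ P ∩ Q) (h' : l' ⊆ P ∩ Q) : l = l' := by
  obtain ⟨a, s, ha, rfl⟩ := hP
  obtain ⟨b, t, hb, rfl⟩ := hQ
  obtain ⟨p, v, hv, rfl⟩ := hl
  obtain ⟨q, w, hw, rfl⟩ := hl'
  obtain ⟨p1, p2⟩ := h (mem_self p v)
  obtain ⟨p3, p4⟩ := h (mem_one p v)
  obtain ⟨q1, q2⟩ := h' (mem_self q w)
  obtain ⟨q3, q4⟩ := h' (mem_one q w)
  simp only [Set.mem_setOf_eq, Pi.add_apply] at p1 p2 p3 p4 q1 q2 q3 q4
  have hc : cr a b ≠ 0 := by
    intro hc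
    obtain ⟨m, rfl⟩ := par_of_cr ha hc
    have hm : m ≠ 0 := by
      rintro rfl
      simp at hb
    apply hne
    ext x
    simp only [Set.mem_setOf_eq, Pi.smul_apply, smul_eq_mul] at p2 ⊢
    constructor
    · intro hx
      linear_combination m * hx + p2 - m * p1
    · intro hx
      apply mul_left_cancel₀ hm
      linear_combination hx - p2 + m * p1
  obtain ⟨m1, e1⟩ := par_cr (v := v) hc (by linarith) (by linarith)
  obtain ⟨m2, e2⟩ := par_cr (v := w) hc (by linarith) (by linarith)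
  obtain ⟨m3, e3⟩ := par_cr (v := p - q) hc (by simp only [Pi.sub_apply]; linarith)
    (by simp only [Pi.sub_apply]; linarith)
  have n1 : m1 ≠ 0 := by
    rintro rfl
    simp [hv] at e1
  have n2 : m2 ≠ 0 := by
    rintro rfl
    simp [hw] at e2
  have e4 : p = q + m3 • cr a b := by rw [← e3]; abel
  ext x
  constructor
  · rintro ⟨u, rfl⟩
    refine ⟨(m3 + u * m1) / m2, ?_⟩
    rw [e4, e1, e2, smul_smul, smul_smul, div_mul_cancel₀ _ n2, add_smul, add_assoc]
  · rintro ⟨u, rfl⟩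
    refine ⟨(u * m2 - m3) / m1, ?_⟩
    rw [e4, e1, e2, smul_smul, smul_smul, div_mul_cancel₀ _ n1, add_assoc, ← add_smul]
    congr 2
    ring

/-- two non-parallel planes contain a common line -/
theorem line_exists {P Q : Set E} (hP : IsPlane P) (hQ : IsPlane Q)
    (hn : ¬ ∃ w : E, Q = {x | x - w ∈ P}) : ∃ l, IsLine l ∧ l ⊆ P ∩ Q := by
  obtain ⟨a, s, ha, rfl⟩ := hP
  obtain ⟨b, t, hb, rfl⟩ := hQ
  have hp := ne_zero_iff ha
  have hc : cr a b ≠ 0 := by
    intro hc
    obtain ⟨m, rfl⟩ := par_of_cr ha hc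
    have hm : m ≠ 0 := by
      rintro rfl
      simp at hb
    apply hn
    refine ⟨((t / m - s) / (a 0 ^ 2 + a 1 ^ 2 + a 2 ^ 2)) • a, ?_⟩
    ext x
    simp only [Set.mem_setOf_eq, Pi.smul_apply, smul_eq_mul, Pi.sub_apply]
    have key : a 0 * ((t / m - s) / (a 0 ^ 2 + a 1 ^ 2 + a 2 ^ 2) * a 0) +
        a 1 * ((t / m - s) / (a 0 ^ 2 + a 1 ^ 2 + a 2 ^ 2) * a 1) +
        a 2 * ((t / m - s) / (a 0 ^ 2 + a 1 ^ 2 + a 2 ^ 2) * a 2) = t / m - s := by
      field_simp
    have k2 : m * (t / m) = t := by field_simp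
    constructor
    · intro hx
      apply mul_left_cancel₀ hm
      linear_combination hx - m * key - k2
    · intro hx
      linear_combination m * hx + m * key + k2
  have hq := ne_zero_iff hc
  set c := cr a b with hcd
  have c0 : c 0 = a 1 * b 2 - a 2 * b 1 := by simp [hcd, cr]
  have c1 : c 1 = a 2 * b 0 - a 0 * b 2 := by simp [hcd, cr]
  have c2 : c 2 = a 0 * b 1 - a 1 * b 0 := by simp [hcd, cr]
  obtain ⟨al, k1⟩ : ∃ al, al * (c 0 ^ 2 + c 1 ^ 2 + c 2 ^ 2) = s :=
    ⟨s / (c 0 ^ 2 + c 1 ^ 2 + c 2 ^ 2), by field_simp⟩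
  obtain ⟨be, k2⟩ : ∃ be, be * (c 0 ^ 2 + c 1 ^ 2 + c 2 ^ 2) = t :=
    ⟨t / (c 0 ^ 2 + c 1 ^ 2 + c 2 ^ 2), by field_simp⟩
  refine ⟨lineThrough (al • cr b c + be • cr c a) c, ⟨_, _, hc, rfl⟩, ?_⟩
  rintro x ⟨u, rfl⟩
  rw [c0, c1, c2] at k1 k2
  constructor
  · simp only [Set.mem_setOf_eq, Pi.add_apply, Pi.smul_apply, smul_eq_mul, cr0, cr1, cr2]
    rw [c0, c1, c2]
    linear_combination k1
  · simp only [Set.mem_setOf_eq, Pi.add_apply, Pi.smul_apply, smul_eq_mul, cr0, cr1, cr2]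
    rw [c0, c1, c2]
    linear_combination k2

/-- the plane with parameter `r` -/
def pl (r : ℝ) : Set E := {x | x 0 + r * x 1 + r ^ 2 * x 2 = -r ^ 4}

theorem pl_plane (r : ℝ) : IsPlane (pl r) := by
  refine ⟨![1, r, r ^ 2], -r ^ 4, ?_, ?_⟩
  · intro h
    simpa using congrFun h 0
  · ext x
    simp [pl]

theorem pl_inj : Function.Injective pl := by
  intro r s h
  have h1 : (![-r ^ 4, 0, 0] : E) ∈ pl r := by simp [pl]
  have h2 : (![-r ^ 4 - r, 1, 0] : E) ∈ pl r := by simp [pl]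
  rw [h] at h1 h2
  simp [pl] at h1 h2
  linarith

/-- direction of the intersection of two of the planes -/
def dir (s t : ℝ) : E := ![s * t, -(s + t), 1]

theorem dir0 (s t : ℝ) : dir s t 0 = s * t := rfl
theorem dir1 (s t : ℝ) : dir s t 1 = -(s + t) := rfl
theorem dir2 (s t : ℝ) : dir s t 2 = 1 := rfl

theorem dir_ne (s t : ℝ) : dir s t ≠ 0 := by
  intro h
  simpa [dir] using congrFun h 2

theorem inter_eq {s t : ℝ} (h : s ≠ t) {p : E} (hs : p ∈ pl s) (ht : p ∈ pl t) :
    pl s ∩ pl t = lineThrough p (dir s t) := by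
  have hst : s - t ≠ 0 := sub_ne_zero.2 h
  simp only [pl, Set.mem_setOf_eq] at hs ht
  ext x
  constructor
  · rintro ⟨h1, h2⟩
    simp only [pl, Set.mem_setOf_eq] at h1 h2
    refine ⟨x 2 - p 2, ?_⟩
    have e1 : x 1 - p 1 = -(s + t) * (x 2 - p 2) := by
      apply mul_left_cancel₀ hst
      linear_combination h1 - h2 - hs + ht
    apply vec_ext <;> simp [dir]
    · linear_combination h1 - hs - s * e1
    · linear_combination e1
  · rintro ⟨u, rfl⟩
    constructor <;>
      simp only [pl, Set.mem_setOf_eq, Pi.add_apply, Pi.smul_apply, smul_eq_mul, dir0, dir1, dir2]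
    · linear_combination hs
    · linear_combination ht

/-- the common point of three of the planes -/
def pt (s t u : ℝ) : E :=
  ![-(s * t * u * (s + t + u)), (s * t + s * u + t * u) * (s + t + u) - s * t * u,
    s * t + s * u + t * u - (s + t + u) ^ 2]

theorem mem_pt (s t u r : ℝ) :
    pt s t u ∈ pl r ↔ (r - s) * (r - t) * (r - u) * (r + s + t + u) = 0 := by
  simp only [pl, pt, Set.mem_setOf_eq]
  simp only [Matrix.cons_val_zero, Matrix.cons_val_one, Matrix.cons_val]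
  constructor <;> intro h <;> linear_combination h

theorem three_unique {s t u : ℝ} (h1 : s ≠ t) (h2 : s ≠ u) (h3 : t ≠ u) {p : E}
    (hs : p ∈ pl s) (ht : p ∈ pl t) (hu : p ∈ pl u) : p = pt s t u := by
  have hq : pt s t u ∈ pl s ∩ pl t := ⟨by rw [mem_pt]; ring, by rw [mem_pt]; ring⟩
  have hq' : pt s t u ∈ pl u := by rw [mem_pt]; ring
  rw [inter_eq h1 hs ht] at hq
  obtain ⟨c, hc⟩ := hq
  rw [hc] at hq'
  rw [hc]
  simp only [pl, Set.mem_setOf_eq, Pi.add_apply, Pi.smul_apply, smul_eq_mul, dir0, dir1,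
    dir2] at hq' hu
  have : c * ((u - s) * (u - t)) = 0 := by linear_combination hq' - hu
  rcases mul_eq_zero.1 this with h | h
  · simp [h]
  · exact absurd h (mul_ne_zero (sub_ne_zero.2 h2.symm) (sub_ne_zero.2 h3.symm))

theorem inter_line {s t : ℝ} (h : s ≠ t) : IsLine (pl s ∩ pl t) :=
  ⟨pt s t 0, dir s t, dir_ne s t, inter_eq h (by rw [mem_pt]; ring) (by rw [mem_pt]; ring)⟩

theorem inter_sub {s t r : ℝ} (h : s ≠ t) (hr : pl s ∩ pl t ⊆ pl r) : r = s ∨ r = t := by
  by_contra hc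
  push Not at hc
  obtain ⟨p, v, hv, e⟩ := inter_line h
  have m1 : p ∈ pl s ∩ pl t := e ▸ mem_self p v
  have m2 : p + v ∈ pl s ∩ pl t := e ▸ mem_one p v
  have e1 := three_unique h hc.1.symm hc.2.symm m1.1 m1.2 (hr m1)
  have e2 := three_unique h hc.1.symm hc.2.symm m2.1 m2.2 (hr m2)
  rw [← e1] at e2
  exact hv (by simpa using e2)

theorem dir_indep {s t u : ℝ} (h1 : s ≠ t) (h2 : s ≠ u) (h3 : t ≠ u) :
    LinearIndependent ℝ ![dir s t, dir s u, dir t u] := by
  rw [Fintype.linearIndependent_iff]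
  intro g hg
  rw [Fin.sum_univ_three] at hg
  have e0 := congrFun hg 0
  have e1 := congrFun hg 1
  have e2 := congrFun hg 2
  simp [dir] at e0 e1 e2
  have a0 : g 0 * ((u - s) * (u - t)) = 0 := by linear_combination e0 + u * e1 + u ^ 2 * e2
  have a1 : g 1 * ((t - s) * (t - u)) = 0 := by linear_combination e0 + t * e1 + t ^ 2 * e2
  have a2 : g 2 * ((s - t) * (s - u)) = 0 := by linear_combination e0 + s * e1 + s ^ 2 * e2
  intro i
  fin_cases i
  · exact (mul_eq_zero.1 a0).resolve_right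
      (mul_ne_zero (sub_ne_zero.2 h2.symm) (sub_ne_zero.2 h3.symm))
  · exact (mul_eq_zero.1 a1).resolve_right
      (mul_ne_zero (sub_ne_zero.2 h1.symm) (sub_ne_zero.2 h3))
  · exact (mul_eq_zero.1 a2).resolve_right
      (mul_ne_zero (sub_ne_zero.2 h1) (sub_ne_zero.2 h2))

open Classical

/-- the parameters -/
noncomputable def T (M : ℕ) : Finset ℝ :=
  (range M).image (fun i => (4 : ℝ) ^ i) ∪ (range M).image (fun i => -(4 : ℝ) ^ i)

theorem inj4 : Function.Injective (fun i : ℕ => (4 : ℝ) ^ i) :=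
  pow_right_injective₀ (by norm_num) (by norm_num)

theorem inj4' : Function.Injective (fun i : ℕ => -(4 : ℝ) ^ i) :=
  fun _ _ h => inj4 (neg_injective h)

theorem card_T (M : ℕ) : (T M).card = 2 * M := by
  rw [T, card_union_of_disjoint, card_image_of_injective _ inj4, card_image_of_injective _ inj4',
    card_range, two_mul]
  rw [disjoint_left]
  intro x h1 h2
  obtain ⟨i, -, rfl⟩ := mem_image.1 h1
  obtain ⟨j, -, h⟩ := mem_image.1 h2
  have : (0 : ℝ) < 4 ^ i := by positivity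
  have : (0 : ℝ) < 4 ^ j := by positivity
  linarith

theorem abs_T {M : ℕ} {r : ℝ} (h : r ∈ T M) : ∃ i : ℕ, |r| = 4 ^ i := by
  rcases mem_union.1 h with h | h <;> obtain ⟨i, -, rfl⟩ := mem_image.1 h <;> exact ⟨i, by simp⟩

theorem dom {a b c d : ℕ} (hb : b < a) (hc : c < a) (hd : d < a) {s t u r : ℝ}
    (h1 : |s| = 4 ^ a) (h2 : |t| = 4 ^ b) (h3 : |u| = 4 ^ c) (h4 : |r| = 4 ^ d) :
    s + t + u + r ≠ 0 := by
  have k : ∀ e : ℕ, e < a → 4 * (4 : ℝ) ^ e ≤ 4 ^ a := fun e he => by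
    rw [← pow_succ']
    exact pow_le_pow_right₀ (by norm_num) he
  have k1 := k b hb
  have k2 := k c hc
  have k3 := k d hd
  have : (0 : ℝ) < 4 ^ a := by positivity
  intro h
  have e : s = -(t + u + r) := by linarith
  rw [e, abs_neg] at h1
  have := abs_add_three t u r
  linarith

theorem four {M : ℕ} {s t u r : ℝ} (hs : s ∈ T M) (ht : t ∈ T M) (hu : u ∈ T M) (hr : r ∈ T M)
    (h1 : |s| ≠ |t|) (h2 : |s| ≠ |u|) (h3 : |t| ≠ |u|) (h : r + s + t + u = 0) :
    r = s ∨ r = t ∨ r = u := by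
  by_contra hc
  push Not at hc
  have n1 : |r| ≠ |s| := fun e => by
    rcases abs_eq_abs.1 e with e | e
    · exact hc.1 e
    · exact h3 (abs_eq_abs.2 (Or.inr (by linarith)))
  have n2 : |r| ≠ |t| := fun e => by
    rcases abs_eq_abs.1 e with e | e
    · exact hc.2.1 e
    · exact h2 (abs_eq_abs.2 (Or.inr (by linarith)))
  have n3 : |r| ≠ |u| := fun e => by
    rcases abs_eq_abs.1 e with e | e
    · exact hc.2.2 e
    · exact h1 (abs_eq_abs.2 (Or.inr (by linarith)))
  obtain ⟨a, ha⟩ := abs_T hs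
  obtain ⟨b, hb⟩ := abs_T ht
  obtain ⟨c, hc'⟩ := abs_T hu
  obtain ⟨d, hd⟩ := abs_T hr
  have m1 : a ≠ b := fun e => h1 (by rw [ha, hb, e])
  have m2 : a ≠ c := fun e => h2 (by rw [ha, hc', e])
  have m3 : b ≠ c := fun e => h3 (by rw [hb, hc', e])
  have m4 : d ≠ a := fun e => n1 (by rw [ha, hd, e])
  have m5 : d ≠ b := fun e => n2 (by rw [hb, hd, e])
  have m6 : d ≠ c := fun e => n3 (by rw [hc', hd, e])
  have : (b < a ∧ c < a ∧ d < a) ∨ (a < b ∧ c < b ∧ d < b) ∨ (a < c ∧ b < c ∧ d < c) ∨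
      (a < d ∧ b < d ∧ c < d) := by omega
  rcases this with k | k | k | k
  · exact dom k.1 k.2.1 k.2.2 ha hb hc' hd (by linarith)
  · exact dom k.1 k.2.1 k.2.2 hb ha hc' hd (by linarith)
  · exact dom k.1 k.2.1 k.2.2 hc' ha hb hd (by linarith)
  · exact dom k.1 k.2.1 k.2.2 hd ha hb hc' (by linarith)

/-- common points of the planes with parameter in `S` -/
def ln (S : Finset ℝ) : Set E := {x | ∀ r ∈ S, x ∈ pl r}

theorem ln_pair (s t : ℝ) : ln {s, t} = pl s ∩ pl t := by
  ext x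
  simp [ln]

/-- the lines -/
noncomputable def Lf (S : Finset ℝ) : Finset (Set E) := (S.powersetCard 2).image ln

theorem mem_Lf {S : Finset ℝ} {l : Set E} :
    l ∈ Lf S ↔ ∃ s ∈ S, ∃ t ∈ S, s ≠ t ∧ l = pl s ∩ pl t := by
  constructor
  · intro h
    obtain ⟨A, hA, rfl⟩ := mem_image.1 h
    obtain ⟨h1, h2⟩ := mem_powersetCard.1 hA
    obtain ⟨s, t, hst, rfl⟩ := card_eq_two.1 h2
    exact ⟨s, h1 (by simp), t, h1 (by simp), hst, ln_pair s t⟩
  · rintro ⟨s, hs, t, ht, hst, rfl⟩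
    refine mem_image.2 ⟨{s, t}, mem_powersetCard.2 ⟨?_, card_pair hst⟩, ln_pair s t⟩
    intro x hx
    rcases mem_insert.1 hx with rfl | hx
    · exact hs
    · rw [mem_singleton.1 hx]
      exact ht

theorem card_Lf (S : Finset ℝ) : (Lf S).card = S.card.choose 2 := by
  rw [Lf, card_image_of_injOn, card_powersetCard]
  intro A hA B hB h
  obtain ⟨-, h2⟩ := mem_powersetCard.1 (mem_coe.1 hA)
  obtain ⟨-, h3⟩ := mem_powersetCard.1 (mem_coe.1 hB)
  symm
  apply eq_of_subset_of_card_le _ (by omega)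
  obtain ⟨s, t, hst, rfl⟩ := card_eq_two.1 h2
  intro r hr
  have : pl s ∩ pl t ⊆ pl r := by
    rw [← ln_pair, h]
    exact fun x hx => hx r hr
  simpa using inter_sub hst this

theorem joint_three {S : Finset ℝ} {p : E} (h : IsJoint (Lf S : Set (Set E)) p) :
    ∃ A ∈ S.powersetCard 3, p ∈ ln A := by
  obtain ⟨v, hv, hl⟩ := h
  obtain ⟨s, hs, t, ht, hst, e0⟩ := mem_Lf.1 (mem_coe.1 (hl 0))
  obtain ⟨a, ha, b, hb, hab, e1⟩ := mem_Lf.1 (mem_coe.1 (hl 1))
  have m0 : p ∈ pl s ∩ pl t := e0 ▸ mem_self p _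
  have m1 : p ∈ pl a ∩ pl b := e1 ▸ mem_self p _
  have hne : pl s ∩ pl t ≠ pl a ∩ pl b := by
    intro e
    have : p + v 0 ∈ lineThrough p (v 1) := by
      rw [e1, ← e, ← e0]
      exact mem_one p _
    obtain ⟨c, hc⟩ := this
    have hc' : v 0 = c • v 1 := add_left_cancel hc
    have := Fintype.linearIndependent_iff.1 hv ![1, -c, 0]
      (by rw [Fin.sum_univ_three, hc']; simp) 0
    simp at this
  have key : ∃ u ∈ S, s ≠ u ∧ t ≠ u ∧ p ∈ pl u := by
    by_contra hc
    push Not at hc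
    have k1 : s = a ∨ t = a := by
      by_contra k
      push Not at k
      exact hc a ha k.1 k.2 m1.1
    have k2 : s = b ∨ t = b := by
      by_contra k
      push Not at k
      exact hc b hb k.1 k.2 m1.2
    rcases k1 with rfl | rfl <;> rcases k2 with rfl | rfl
    · exact hab rfl
    · exact hne rfl
    · exact hne (Set.inter_comm _ _)
    · exact hab rfl
  obtain ⟨u, hu, h1, h2, h3⟩ := key
  refine ⟨{s, t, u}, mem_powersetCard.2 ⟨?_, card_eq_three.2 ⟨s, t, u, hst, h1, h2, rfl⟩⟩, ?_⟩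
  · intro x hx
    simp only [mem_insert, mem_singleton] at hx
    rcases hx with rfl | rfl | rfl <;> assumption
  · intro x hx
    simp only [mem_insert, mem_singleton] at hx
    rcases hx with rfl | rfl | rfl
    · exact m0.1
    · exact m0.2
    · exact h3

theorem joints_upper (S : Finset ℝ) :
    {p | IsJoint (Lf S : Set (Set E)) p}.Finite ∧ J (Lf S : Set (Set E)) ≤ S.card.choose 3 := by
  have h : ∀ p : E, ∃ A : Finset ℝ,
      IsJoint (Lf S : Set (Set E)) p → A ∈ S.powersetCard 3 ∧ p ∈ ln A := fun p => by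
    by_cases hp : IsJoint (Lf S : Set (Set E)) p
    · obtain ⟨A, h1, h2⟩ := joint_three hp
      exact ⟨A, fun _ => ⟨h1, h2⟩⟩
    · exact ⟨∅, fun h => absurd h hp⟩
  choose g hg using h
  have hm : Set.MapsTo g {p | IsJoint (Lf S : Set (Set E)) p} (S.powersetCard 3 : Set _) :=
    fun p hp => mem_coe.2 (hg p hp).1
  have hi : Set.InjOn g {p | IsJoint (Lf S : Set (Set E)) p} := by
    intro p hp q hq e
    obtain ⟨h1, h2⟩ := hg p hp
    obtain ⟨-, h3⟩ := hg q hq
    rw [← e] at h3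
    obtain ⟨s, t, u, k1, k2, k3, k⟩ := card_eq_three.1 (mem_powersetCard.1 h1).2
    rw [k] at h2 h3
    rw [three_unique k1 k2 k3 (h2 s (by simp)) (h2 t (by simp)) (h2 u (by simp)),
      three_unique k1 k2 k3 (h3 s (by simp)) (h3 t (by simp)) (h3 u (by simp))]
  refine ⟨Set.Finite.of_injOn hm hi (finite_toSet _), ?_⟩
  have := Set.ncard_le_ncard_of_injOn g hm hi (finite_toSet _)
  rwa [Set.ncard_coe_finset, card_powersetCard] at this

theorem joints_lower (M : ℕ) :
    (2 * M).choose 3 ≤ J (Lf (T M) : Set (Set E)) + 2 * M * (2 * M) := by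
  set G := ((T M).powersetCard 3).filter (fun A => ∀ r ∈ A, -r ∉ A) with hG
  have h : ∀ A : Finset ℝ, ∃ p : E, A ∈ G →
      IsJoint (Lf (T M) : Set (Set E)) p ∧ ∀ r ∈ T M, (p ∈ pl r ↔ r ∈ A) := fun A => by
    by_cases hA : A ∈ G
    · obtain ⟨h1, h2⟩ := mem_filter.1 hA
      obtain ⟨h3, h4⟩ := mem_powersetCard.1 h1
      obtain ⟨s, t, u, k1, k2, k3, rfl⟩ := card_eq_three.1 h4
      have hs : s ∈ T M := h3 (by simp)
      have ht : t ∈ T M := h3 (by simp)
      have hu : u ∈ T M := h3 (by simp)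
      have ps : pt s t u ∈ pl s := by rw [mem_pt]; ring
      have pt' : pt s t u ∈ pl t := by rw [mem_pt]; ring
      have pu : pt s t u ∈ pl u := by rw [mem_pt]; ring
      refine ⟨pt s t u, fun _ => ⟨⟨_, dir_indep k1 k2 k3, fun i => ?_⟩, fun r hr => ?_⟩⟩
      · fin_cases i
        · exact mem_coe.2 (mem_Lf.2 ⟨s, hs, t, ht, k1, (inter_eq k1 ps pt').symm⟩)
        · exact mem_coe.2 (mem_Lf.2 ⟨s, hs, u, hu, k2, (inter_eq k2 ps pu).symm⟩)
        · exact mem_coe.2 (mem_Lf.2 ⟨t, ht, u, hu, k3, (inter_eq k3 pt' pu).symm⟩)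
      · rw [mem_pt]
        simp only [mem_insert, mem_singleton, mul_eq_zero, sub_eq_zero]
        have a1 : |s| ≠ |t| := fun e => by
          rcases abs_eq_abs.1 e with e | e
          · exact k1 e
          · exact h2 t (by simp) (by simp [e])
        have a2 : |s| ≠ |u| := fun e => by
          rcases abs_eq_abs.1 e with e | e
          · exact k2 e
          · exact h2 u (by simp) (by simp [e])
        have a3 : |t| ≠ |u| := fun e => by
          rcases abs_eq_abs.1 e with e | e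
          · exact k3 e
          · exact h2 u (by simp) (by simp [e])
        constructor
        · rintro (((h | h) | h) | h)
          · exact Or.inl h
          · exact Or.inr (Or.inl h)
          · exact Or.inr (Or.inr h)
          · exact four hs ht hu hr a1 a2 a3 h
        · rintro (h | h | h)
          · exact Or.inl (Or.inl (Or.inl h))
          · exact Or.inl (Or.inl (Or.inr h))
          · exact Or.inl (Or.inr h)
    · exact ⟨0, fun h => absurd h hA⟩
  choose g hg using h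
  have hm : Set.MapsTo g (G : Set _) {p | IsJoint (Lf (T M) : Set (Set E)) p} :=
    fun A hA => (hg A hA).1
  have hi : Set.InjOn g (G : Set _) := by
    intro A hA B hB e
    have sA := (mem_powersetCard.1 (mem_filter.1 hA).1).1
    have sB := (mem_powersetCard.1 (mem_filter.1 hB).1).1
    ext r
    constructor
    · intro hr
      rw [← (hg B hB).2 r (sA hr), ← e, (hg A hA).2 r (sA hr)]
      exact hr
    · intro hr
      rw [← (hg A hA).2 r (sB hr), e, (hg B hB).2 r (sB hr)]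
      exact hr
  have h1 := Set.ncard_le_ncard_of_injOn g hm hi (joints_upper _).1
  rw [Set.ncard_coe_finset] at h1
  have h2 : (T M).powersetCard 3 ⊆
      G ∪ (T M ×ˢ T M).image (fun q => ({q.1, -q.1, q.2} : Finset ℝ)) := by
    intro A hA
    by_cases hA' : A ∈ G
    · exact mem_union_left _ hA'
    · apply mem_union_right
      rw [hG, mem_filter] at hA'
      push Not at hA'
      obtain ⟨r, r1, r2⟩ := hA' hA
      obtain ⟨h3, h4⟩ := mem_powersetCard.1 hA
      have hr : r ≠ -r := by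
        obtain ⟨i, hi⟩ := abs_T (h3 r1)
        intro e
        have : r = 0 := by linarith
        rw [this, abs_zero] at hi
        have : (0 : ℝ) < 4 ^ i := by positivity
        linarith
      have hs : ({r, -r} : Finset ℝ) ⊆ A := by
        intro x hx
        simp only [mem_insert, mem_singleton] at hx
        rcases hx with rfl | rfl <;> assumption
      have : (A \ {r, -r}).card = 1 := by
        rw [card_sdiff_of_subset hs, card_pair hr, h4]
      obtain ⟨u, hu⟩ := card_eq_one.1 this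
      have hu' : u ∈ A := (mem_sdiff.1 (hu ▸ mem_singleton_self u)).1
      refine mem_image.2 ⟨(r, u), mem_product.2 ⟨h3 r1, h3 hu'⟩, ?_⟩
      rw [← union_sdiff_of_subset hs, hu]
      ext x
      simp [or_assoc]
  have h3 := (card_le_card h2).trans (card_union_le _ _)
  have h4 := card_image_le (s := T M ×ˢ T M) (f := fun q => ({q.1, -q.1, q.2} : Finset ℝ))
  rw [card_product, card_T] at h4
  rw [card_powersetCard, card_T] at h3
  unfold J
  omega

theorem dc {α β : Type*} (s : Finset α) (t : Finset β) (r : α → β → Prop) :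
    ∑ a ∈ s, (t.filter (fun b => r a b)).card = ∑ b ∈ t, (s.filter (fun a => r a b)).card := by
  simp only [card_filter]
  exact sum_comm

theorem line_Lf {S : Finset ℝ} {l : Set E} (h : l ∈ Lf S) : IsLine l := by
  obtain ⟨s, -, t, -, hst, rfl⟩ := mem_Lf.1 h
  exact inter_line hst

theorem deg_bound (S : Finset ℝ) {P : Set E} (hP : IsPlane P) :
    2 * ((Lf S).filter (fun l => l ⊆ P)).card ≤
      S.card + if P ∈ S.image pl then S.card else 0 := by
  set D := (Lf S).filter (fun l => l ⊆ P) with hD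
  have h1 : 2 * D.card ≤ ∑ l ∈ D, (S.filter (fun r => l ⊆ pl r)).card := by
    rw [mul_comm, ← smul_eq_mul]
    apply card_nsmul_le_sum
    intro l hl
    obtain ⟨s, hs, t, ht, hst, rfl⟩ := mem_Lf.1 (mem_filter.1 hl).1
    rw [← card_pair hst]
    apply card_le_card
    intro x hx
    simp only [mem_insert, mem_singleton] at hx
    rcases hx with rfl | rfl
    · exact mem_filter.2 ⟨hs, Set.inter_subset_left⟩
    · exact mem_filter.2 ⟨ht, Set.inter_subset_right⟩
  rw [dc] at h1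
  have h2 : ∀ r, P ≠ pl r → (D.filter (fun l => l ⊆ pl r)).card ≤ 1 := fun r hr => by
    rw [card_le_one]
    intro l hl l' hl'
    obtain ⟨a1, a2⟩ := mem_filter.1 hl
    obtain ⟨a3, a4⟩ := mem_filter.1 a1
    obtain ⟨b1, b2⟩ := mem_filter.1 hl'
    obtain ⟨b3, b4⟩ := mem_filter.1 b1
    exact line_unique hP (pl_plane r) hr (line_Lf a3) (line_Lf b3)
      (Set.subset_inter a4 a2) (Set.subset_inter b4 b2)
  split_ifs with h
  · obtain ⟨s, hs, rfl⟩ := mem_image.1 h
    rw [← add_sum_erase _ _ hs] at h1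
    have h3 : ∑ r ∈ S.erase s, (D.filter (fun l => l ⊆ pl r)).card ≤ (S.erase s).card • 1 :=
      sum_le_card_nsmul _ _ _ (fun r hr => h2 r (fun e => (mem_erase.1 hr).1 (pl_inj e).symm))
    have h4 := card_filter_le D (fun l => l ⊆ pl s)
    have h5 := card_erase_le (s := S) (a := s)
    rw [smul_eq_mul] at h3
    omega
  · have h3 : ∑ r ∈ S, (D.filter (fun l => l ⊆ pl r)).card ≤ S.card • 1 :=
      sum_le_card_nsmul _ _ _ (fun r hr => h2 r (fun e => h (mem_image.2 ⟨r, hr, e.symm⟩)))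
    rw [smul_eq_mul] at h3
    omega

theorem common_bound (M : ℕ) (H : Finset (Set E)) (hH : Generic (H : Set (Set E))) :
    (H.filter (fun P => P ∈ (T M).image pl)).card ≤ M + 1 := by
  set A := (range M).filter (fun i => pl (4 ^ i) ∈ H) with hA
  set B := (range M).filter (fun i => pl (-4 ^ i) ∈ H) with hB
  have h1 : H.filter (fun P => P ∈ (T M).image pl) ⊆
      A.image (fun i => pl (4 ^ i)) ∪ B.image (fun i => pl (-4 ^ i)) := by
    intro P hP
    obtain ⟨h1, h2⟩ := mem_filter.1 hP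
    obtain ⟨r, hr, rfl⟩ := mem_image.1 h2
    rcases mem_union.1 hr with h | h <;> obtain ⟨i, hi, rfl⟩ := mem_image.1 h
    · exact mem_union_left _ (mem_image.2 ⟨i, mem_filter.2 ⟨hi, h1⟩, rfl⟩)
    · exact mem_union_right _ (mem_image.2 ⟨i, mem_filter.2 ⟨hi, h1⟩, rfl⟩)
  have h2 := (card_le_card h1).trans (card_union_le _ _)
  have h3 := card_image_le (s := A) (f := fun i => pl (4 ^ i))
  have h4 := card_image_le (s := B) (f := fun i => pl (-4 ^ i))
  have h5 := card_union_add_card_inter A B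
  have h6 : (A ∪ B).card ≤ M := by
    rw [← card_range M]
    exact card_le_card (union_subset (filter_subset _ _) (filter_subset _ _))
  have h7 : (A ∩ B).card ≤ 1 := by
    rw [card_le_one]
    intro i hi j hj
    by_contra hij
    obtain ⟨a1, a2⟩ := mem_inter.1 hi
    obtain ⟨b1, b2⟩ := mem_inter.1 hj
    have pi : (0 : ℝ) < 4 ^ i := by positivity
    have pj : (0 : ℝ) < 4 ^ j := by positivity
    have n : (4 : ℝ) ^ i ≠ 4 ^ j := fun e => hij (inj4 e)
    refine hH.2.2.2.2 _ (mem_coe.2 (mem_filter.1 a1).2) _ (mem_coe.2 (mem_filter.1 a2).2)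
      _ (mem_coe.2 (mem_filter.1 b1).2) _ (mem_coe.2 (mem_filter.1 b2).2)
      (fun e => by linarith [pl_inj e]) (fun e => n (pl_inj e)) (fun e => by linarith [pl_inj e])
      (fun e => by linarith [pl_inj e]) (fun e => n (neg_injective (pl_inj e)))
      (fun e => by linarith [pl_inj e]) ⟨pt (4 ^ i) (-4 ^ i) (4 ^ j), ⟨⟨?_, ?_⟩, ?_⟩, ?_⟩ <;>
      rw [mem_pt] <;> ring
  omega

theorem far (M : ℕ) (H : Set (Set E)) (hH : Generic H) :
    (M : ℝ) ^ 2 / 2 - 3 * M - 1 ≤ (symmDiff (Lf (T M) : Set (Set E)) (LH H)).ncard := by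
  obtain ⟨H, rfl⟩ : ∃ F : Finset (Set E), H = F := ⟨hH.1.toFinset, by simp⟩
  set L' := H.offDiag.image (fun q => q.1 ∩ q.2) with hL'
  have e : LH (H : Set (Set E)) = L' := by
    ext l
    simp only [LH, hL', Set.mem_setOf_eq, coe_image, Set.mem_image, mem_coe, mem_offDiag]
    constructor
    · rintro ⟨P, hP, Q, hQ, h, rfl⟩
      exact ⟨(P, Q), ⟨hP, hQ, h⟩, rfl⟩
    · rintro ⟨q, ⟨h1, h2, h3⟩, rfl⟩
      exact ⟨_, h1, _, h2, h3, rfl⟩
  rw [e, ← coe_symmDiff, Set.ncard_coe_finset]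
  set L := Lf (T M) with hL
  have h1 : (symmDiff L L').card + 2 * (L ∩ L').card = L.card + L'.card := by
    rw [symmDiff_def, sup_eq_union, card_union_of_disjoint disjoint_sdiff_sdiff]
    have a1 := card_sdiff_add_card_inter L L'
    have a2 := card_sdiff_add_card_inter L' L
    rw [inter_comm] at a2
    omega
  have h2 : H.offDiag.card ≤ 2 * L'.card := by
    apply card_le_mul_card_image
    intro l hl
    obtain ⟨⟨P, Q⟩, hq, rfl⟩ := mem_image.1 hl
    obtain ⟨hP, hQ, hPQ⟩ := mem_offDiag.1 hq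
    dsimp only at hP hQ hPQ ⊢
    obtain ⟨l, l1, l2⟩ := line_exists (hH.2.1 P hP) (hH.2.1 Q hQ) (hH.2.2.1 P hP Q hQ hPQ)
    have k : ∀ R ∈ H, P ∩ Q ⊆ R → R = P ∨ R = Q := fun R hR hs => by
      by_contra hc
      push Not at hc
      exact hH.2.2.2.1 P hP Q hQ R hR hPQ hc.1.symm hc.2.symm
        ⟨l, l1, Set.subset_inter l2 (l2.trans hs)⟩
    refine le_trans (card_le_card (t := {(P, Q), (Q, P)}) ?_) card_le_two
    rintro ⟨R, S⟩ h
    obtain ⟨a1, a2⟩ := mem_filter.1 h
    obtain ⟨hR, hS, hRS⟩ := mem_offDiag.1 a1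
    dsimp only at hR hS hRS a2
    rcases k R hR (a2 ▸ Set.inter_subset_left) with rfl | rfl <;>
      rcases k S hS (a2 ▸ Set.inter_subset_right) with rfl | rfl
    · exact absurd rfl hRS
    · simp
    · simp
    · exact absurd rfl hRS
  have h3 : 2 * (L ∩ L').card ≤ ∑ l ∈ L ∩ L', (H.filter (fun P => l ⊆ P)).card := by
    rw [mul_comm, ← smul_eq_mul]
    apply card_nsmul_le_sum
    intro l hl
    obtain ⟨⟨P, Q⟩, hq, rfl⟩ := mem_image.1 (mem_inter.1 hl).2
    obtain ⟨hP, hQ, hPQ⟩ := mem_offDiag.1 hq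
    rw [← card_pair hPQ]
    apply card_le_card
    intro x hx
    simp only [mem_insert, mem_singleton] at hx
    rcases hx with rfl | rfl
    · exact mem_filter.2 ⟨hP, Set.inter_subset_left⟩
    · exact mem_filter.2 ⟨hQ, Set.inter_subset_right⟩
  rw [dc] at h3
  have h4 : 2 * ∑ P ∈ H, ((L ∩ L').filter (fun l => l ⊆ P)).card ≤
      ∑ P ∈ H, (2 * M + if P ∈ (T M).image pl then 2 * M else 0) := by
    rw [mul_sum]
    apply sum_le_sum
    intro P hP
    have a1 := deg_bound (T M) (hH.2.1 P hP)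
    rw [card_T] at a1
    refine le_trans (Nat.mul_le_mul_left _ (card_le_card ?_)) a1
    exact filter_subset_filter _ inter_subset_left
  rw [sum_add_distrib, ← sum_filter, sum_const, sum_const, smul_eq_mul, smul_eq_mul] at h4
  have h5 := Nat.mul_le_mul_right (2 * M) (common_bound M H hH)
  have h6 : L.card = (2 * M).choose 2 := by rw [hL, card_Lf, card_T]
  have h7 : (L.card : ℝ) = 2 * M * (2 * M - 1) / 2 := by
    rw [h6, Nat.cast_choose_two]
    push_cast
    ring
  have h8 : ((H.offDiag.card : ℕ) : ℝ) = H.card * H.card - H.card := by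
    rw [offDiag_card, Nat.cast_sub (Nat.le_mul_self _)]
    push_cast
    ring
  have h9 : 4 * (L ∩ L').card ≤ H.card * (2 * M) + (M + 1) * (2 * M) := by omega
  have r1 : ((symmDiff L L').card : ℝ) + 2 * (L ∩ L').card = L.card + L'.card := by
    exact_mod_cast h1
  have r2 : (H.offDiag.card : ℝ) ≤ 2 * L'.card := by exact_mod_cast h2
  have r9 : 4 * ((L ∩ L').card : ℝ) ≤ H.card * (2 * M) + (M + 1) * (2 * M) := by
    exact_mod_cast h9
  nlinarith [sq_nonneg ((H.card : ℝ) - M - 1 / 2), (Nat.cast_nonneg M : (0 : ℝ) ≤ M)]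

theorem choose3 (n : ℕ) : (n.choose 3 : ℝ) = n * (n - 1) * (n - 2) / 6 := by
  induction n with
  | zero => simp
  | succ n ih =>
    rw [Nat.choose_succ_succ' n 2, Nat.cast_add, ih, Nat.cast_choose_two]
    push_cast
    ring

theorem card_L (M : ℕ) : ((Lf (T M)).card : ℝ) = M * (2 * M - 1) := by
  rw [card_Lf, card_T, Nat.cast_choose_two]
  push_cast
  ring

theorem limJ : Tendsto (fun M : ℕ => (J (Lf (T M) : Set (Set E)) : ℝ) / M ^ 3) atTop
    (𝓝 (4 / 3)) := by
  have h0 : Tendsto (fun M : ℕ => (M : ℝ)⁻¹) atTop (𝓝 0) := tendsto_inv_atTop_nhds_zero_nat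
  have h1 : Tendsto (fun M : ℕ => 2 * (2 - (M : ℝ)⁻¹) * (2 - 2 * (M : ℝ)⁻¹) / 6) atTop
      (𝓝 (2 * (2 - 0) * (2 - 2 * 0) / 6)) :=
    (((h0.const_sub 2).const_mul 2).mul ((h0.const_mul 2).const_sub 2)).div_const 6
  have h2 := h1.sub (h0.const_mul 4)
  norm_num at h1 h2
  refine tendsto_of_tendsto_of_tendsto_of_le_of_le' h2 h1 ?_ ?_
  · filter_upwards [eventually_gt_atTop 0] with M hM
    have p : (0 : ℝ) < M := by exact_mod_cast hM
    have a : (((2 * M).choose 3 : ℕ) : ℝ) ≤ J (Lf (T M) : Set (Set E)) + 2 * M * (2 * M) := by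
      exact_mod_cast joints_lower M
    rw [choose3] at a
    push_cast at a
    rw [le_div_iff₀ (by positivity)]
    refine le_trans (le_of_eq ?_) (sub_le_iff_le_add.2 a)
    field_simp
    ring
  · filter_upwards [eventually_gt_atTop 0] with M hM
    have p : (0 : ℝ) < M := by exact_mod_cast hM
    have a : (J (Lf (T M) : Set (Set E)) : ℝ) ≤ ((2 * M).choose 3 : ℕ) := by
      have := (joints_upper (T M)).2
      rw [card_T] at this
      exact_mod_cast this
    rw [choose3] at a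
    push_cast at a
    rw [div_le_iff₀ (by positivity)]
    refine a.trans (le_of_eq ?_)
    field_simp

theorem limN : Tendsto (fun M : ℕ => ((Lf (T M)).card : ℝ) / M ^ 2) atTop (𝓝 2) := by
  have h0 : Tendsto (fun M : ℕ => (M : ℝ)⁻¹) atTop (𝓝 0) := tendsto_inv_atTop_nhds_zero_nat
  have h1 := h0.const_sub 2
  rw [sub_zero] at h1
  refine h1.congr' ?_
  filter_upwards [eventually_gt_atTop 0] with M hM
  have p : (0 : ℝ) < M := by exact_mod_cast hM
  rw [card_L]
  field_simp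

theorem result : ∃ (L : ℕ → Finset (Set E)) (c : ℝ), 0 < c ∧ (∀ k, ∀ l ∈ L k, IsLine l) ∧
    Tendsto (fun k => (L k).card) atTop atTop ∧
    Tendsto (fun k => (J (L k : Set (Set E)) : ℝ) / ((L k).card : ℝ) ^ (3 / 2 : ℝ)) atTop
      (𝓝 (√2 / 3)) ∧
    ∀ᶠ k in atTop, ∀ H : Set (Set E), Generic H →
      c * ((L k).card : ℝ) ≤ (symmDiff (L k : Set (Set E)) (LH H)).ncard := by
  refine ⟨fun M => Lf (T M), 1 / 5, by norm_num, fun k l hl => line_Lf hl, ?_, ?_, ?_⟩
  · refine tendsto_atTop_mono' _ ?_ tendsto_id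
    filter_upwards [eventually_gt_atTop 0] with M hM
    have p : (1 : ℝ) ≤ M := by exact_mod_cast hM
    have : (M : ℝ) ≤ (Lf (T M)).card := by
      rw [card_L]
      nlinarith
    exact_mod_cast this
  · have h1 := limJ.div (limN.rpow_const (p := 3 / 2) (Or.inl (by norm_num))) (by positivity)
    have e : (4 / 3 : ℝ) / 2 ^ (3 / 2 : ℝ) = √2 / 3 := by
      have : (2 : ℝ) ^ (3 / 2 : ℝ) = 2 * √2 := by
        rw [Real.sqrt_eq_rpow, show (3 / 2 : ℝ) = 1 + 1 / 2 by norm_num,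
          Real.rpow_add (by norm_num), Real.rpow_one]
      have h2 : √2 * √2 = 2 := Real.mul_self_sqrt (by norm_num)
      have h3 : (0 : ℝ) < √2 := by positivity
      rw [this, div_eq_iff (by positivity)]
      linear_combination (-2 / 3) * h2
    rw [e] at h1
    refine h1.congr' ?_
    filter_upwards [eventually_gt_atTop 0] with M hM
    have p : (0 : ℝ) < M := by exact_mod_cast hM
    have : ((M : ℝ) ^ 2) ^ (3 / 2 : ℝ) = M ^ 3 := by
      rw [← Real.rpow_natCast, ← Real.rpow_mul p.le, ← Real.rpow_natCast]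
      norm_num
    simp only [Pi.div_apply]
    rw [Real.div_rpow (by positivity) (by positivity), this, div_div_div_cancel_right₀]
    positivity
  · filter_upwards [eventually_ge_atTop 40] with M hM H hH
    have p : (40 : ℝ) ≤ M := by exact_mod_cast hM
    refine le_trans ?_ (far M H hH)
    rw [card_L]
    nlinarith

end Pool.Agent.Results.MP_a8d5c3_co.No
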